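import Pool.Agent.Lib.MP_3edce6_co.Match

/-!
MP_3edce6_co: 5-partite hypergraphs with small codegrees, a lower bound for the matching number.
-/

namespace Pool.Agent.Lib.RLin

open Finset N00f51e3f Pool.Agent.Lib.MP_3edce6_co
open scoped Classical

universe u
variable {V : Fin 5 → Type u} {H S : Finset (Edge V)}

/-- Any two vertices (of different classes) lie in at most `c` common edges. -/
def Cod (H : Finset (Edge V)) (c : ℕ) : Prop :=
  ∀ g ∈ H, ∀ g' ∈ H, ∀ i j, i ≠ j → (H.filter (fun h => h i = g i ∧ h j = g' j)).card ≤ c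

/-- the number of vertices of `g` which are covered by `S` -/
noncomputable def inc (S : Finset (Edge V)) (g : Edge V) : ℕ :=
  (Finset.univ.filter (fun i : Fin 5 => ∃ f ∈ S, f i = g i)).card

theorem Fe_sub {e : Edge V} : Fe H S e ⊆ H := Finset.filter_subset _ _

theorem mem_Fe_self (hS : MS H S) {e : Edge V} (he : e ∈ S) : e ∈ Fe H S e := by
  unfold Fe
  exact Finset.mem_filter.2 ⟨hS.sub he, Sn_self hS.mat he⟩

/-- The private families have at most `M` members. -/
theorem card_Fe {c M : ℕ} {D : Fin 5 → ℕ} (hc : 1 ≤ c) (hcM : 20 * c ≤ M + 4)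
    (hDM : ∀ i, D i ≤ M) (hL : Cod H c) (hD : ∀ g ∈ H, ∀ i, dd H g i ≤ D i)
    (hS : MS H S) {e : Edge V} (he : e ∈ S) : (Fe H S e).card ≤ M := by
  have heF := mem_Fe_self hS he
  by_cases hstar : ∃ i, ∀ g ∈ Fe H S e, g i = e i
  · obtain ⟨i, hi⟩ := hstar
    have h1 : Fe H S e ⊆ H.filter (fun g' => g' i = e i) := fun g hg =>
      Finset.mem_filter.2 ⟨Fe_sub hg, hi g hg⟩
    exact ((Finset.card_le_card h1).trans (hD e (hS.sub he) i)).trans (hDM i)
  · push Not at hstar
    have h4 : ∀ i, ((Fe H S e).filter (fun g => g i = e i)).card ≤ 4 * c := by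
      intro i
      obtain ⟨g0, hg0, hne⟩ := hstar i
      have hmt : ∀ g ∈ (Fe H S e).filter (fun g => g i = e i), ∃ j, j ≠ i ∧ g j = g0 j := by
        intro g hg
        rw [Finset.mem_filter] at hg
        obtain ⟨j, hj⟩ := hS.inter he g hg.1 g0 hg0
        refine ⟨j, ?_, hj⟩
        rintro rfl
        exact hne (hj.symm.trans hg.2)
      choose! φ hφ1 hφ2 using hmt
      have hcard : (Finset.univ.erase i).card = 4 := by
        rw [Finset.card_erase_of_mem (Finset.mem_univ i), Finset.card_univ, Fintype.card_fin]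
      rw [← hcard, mul_comm]
      refine Finset.card_le_mul_card_image_of_maps_to (f := φ) (fun g hg => ?_) c
        (fun j hj => ?_)
      · exact Finset.mem_erase.2 ⟨hφ1 g hg, Finset.mem_univ _⟩
      · have hji : j ≠ i := (Finset.mem_erase.1 hj).1
        refine (Finset.card_le_card ?_).trans (hL e (hS.sub he) g0 (Fe_sub hg0) i j hji.symm)
        intro g hg
        have hg1 := Finset.mem_filter.1 hg
        have hg2 := Finset.mem_filter.1 hg1.1
        have hg3 := hφ2 g hg1.1
        rw [hg1.2] at hg3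
        exact Finset.mem_filter.2 ⟨Fe_sub hg2.1, hg2.2, hg3⟩
    have hcov : (Fe H S e).erase e ⊆
        Finset.univ.biUnion (fun i : Fin 5 => ((Fe H S e).filter (fun g => g i = e i)).erase e) := by
      intro g hg
      rw [Finset.mem_erase] at hg
      obtain ⟨i, hi⟩ := hS.inter he g hg.2 e heF
      rw [Finset.mem_biUnion]
      exact ⟨i, Finset.mem_univ _, Finset.mem_erase.2 ⟨hg.1, Finset.mem_filter.2 ⟨hg.2, hi⟩⟩⟩
    have h5 := (Finset.card_le_card hcov).trans Finset.card_biUnion_le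
    have h6 : ∑ i : Fin 5, (((Fe H S e).filter (fun g => g i = e i)).erase e).card ≤
        ∑ _i : Fin 5, (4 * c - 1) := by
      refine Finset.sum_le_sum fun i _ => ?_
      have hm : e ∈ (Fe H S e).filter (fun g => g i = e i) := Finset.mem_filter.2 ⟨heF, rfl⟩
      rw [Finset.card_erase_of_mem hm]
      have := h4 i
      omega
    rw [Finset.sum_const, Finset.card_univ, Fintype.card_fin, smul_eq_mul] at h6
    rw [Finset.card_erase_of_mem heF] at h5
    omega

theorem inc_pos (hS : MS H S) {g : Edge V} (hg : g ∈ H) : 1 ≤ inc S g := by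
  obtain ⟨f, hf⟩ := hS.Sn_nonempty hg
  obtain ⟨hf1, i, hi⟩ := mem_Sn.1 hf
  unfold inc
  exact Finset.card_pos.2 ⟨i, Finset.mem_filter.2 ⟨Finset.mem_univ _, f, hf1, hi.symm⟩⟩

theorem inc_self {g : Edge V} (hg : g ∈ S) : inc S g = 5 := by
  unfold inc
  rw [Finset.filter_true_of_mem (fun i _ => ⟨g, hg, rfl⟩), Finset.card_univ, Fintype.card_fin]

theorem inc_one (hS : MS H S) {g : Edge V} (hg : g ∈ H) (h1 : inc S g = 1) :
    ∃ e ∈ S, g ∈ (Fe H S e).erase e := by
  obtain ⟨e, he⟩ := hS.Sn_nonempty hg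
  obtain ⟨heS, i, hi⟩ := mem_Sn.1 he
  refine ⟨e, heS, Finset.mem_erase.2 ⟨?_, ?_⟩⟩
  · rintro rfl
    rw [inc_self heS] at h1
    omega
  · unfold Fe
    refine Finset.mem_filter.2 ⟨hg, ?_⟩
    ext f
    rw [Finset.mem_singleton]
    constructor
    · intro hf
      obtain ⟨hfS, j, hj⟩ := mem_Sn.1 hf
      unfold inc at h1
      have hij : i = j := Finset.card_le_one.1 h1.le i
        (Finset.mem_filter.2 ⟨Finset.mem_univ _, e, heS, hi.symm⟩) j
        (Finset.mem_filter.2 ⟨Finset.mem_univ _, f, hfS, hj.symm⟩)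
      subst hij
      by_contra hne
      exact hS.mat f hfS e heS hne ⟨i, hj.symm.trans hi⟩
    · rintro rfl
      exact he

theorem sum_inc_le {D : Fin 5 → ℕ} (hD : ∀ g ∈ H, ∀ i, dd H g i ≤ D i) (hS : MS H S) :
    ∑ g ∈ H, inc S g ≤ (∑ i, D i) * S.card := by
  have h1 : ∀ g ∈ H, inc S g ≤ ∑ f ∈ S, ∑ i : Fin 5, if g i = f i then 1 else 0 := by
    intro g _
    unfold inc
    rw [Finset.card_filter, Finset.sum_comm]
    refine Finset.sum_le_sum fun i _ => ?_
    split_ifs with h
    · obtain ⟨f, hf, hfi⟩ := h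
      calc 1 = if g i = f i then 1 else 0 := by rw [if_pos hfi.symm]
        _ ≤ ∑ f ∈ S, if g i = f i then 1 else 0 :=
          Finset.single_le_sum (f := fun f : Edge V => if g i = f i then 1 else 0)
            (fun _ _ => Nat.zero_le _) hf
    · exact Nat.zero_le _
  calc ∑ g ∈ H, inc S g ≤ ∑ g ∈ H, ∑ f ∈ S, ∑ i : Fin 5, (if g i = f i then 1 else 0) :=
        Finset.sum_le_sum h1
    _ = ∑ f ∈ S, ∑ i : Fin 5, dd H f i := by
        rw [Finset.sum_comm]
        refine Finset.sum_congr rfl fun f _ => ?_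
        rw [Finset.sum_comm]
        refine Finset.sum_congr rfl fun i _ => ?_
        unfold dd
        rw [Finset.card_filter]
    _ ≤ ∑ _f ∈ S, ∑ i : Fin 5, D i :=
        Finset.sum_le_sum fun f hf => Finset.sum_le_sum fun i _ => hD f (hS.sub hf) i
    _ = (∑ i, D i) * S.card := by
        rw [Finset.sum_const, smul_eq_mul, mul_comm]

/-- **The lower bound for the matching number.** -/
theorem main {c M : ℕ} {D : Fin 5 → ℕ} (hc : 1 ≤ c) (hcM : 20 * c ≤ M + 4)
    (hDM : ∀ i, D i ≤ M) (hL : Cod H c) (hD : ∀ g ∈ H, ∀ i, dd H g i ≤ D i)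
    (hS : MS H S) : 2 * H.card + 4 * S.card ≤ (∑ i, D i + M) * S.card := by
  have h1 := sum_inc_le hD hS
  have hP : (H.filter (fun g => inc S g = 1)).card ≤ (M - 1) * S.card := by
    have hsub : H.filter (fun g => inc S g = 1) ⊆ S.biUnion (fun e => (Fe H S e).erase e) := by
      intro g hg
      rw [Finset.mem_filter] at hg
      obtain ⟨e, he, hge⟩ := inc_one hS hg.1 hg.2
      exact Finset.mem_biUnion.2 ⟨e, he, hge⟩
    calc _ ≤ (S.biUnion (fun e => (Fe H S e).erase e)).card := Finset.card_le_card hsub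
      _ ≤ ∑ e ∈ S, ((Fe H S e).erase e).card := Finset.card_biUnion_le
      _ ≤ ∑ _e ∈ S, (M - 1) := by
          refine Finset.sum_le_sum fun e he => ?_
          rw [Finset.card_erase_of_mem (mem_Fe_self hS he)]
          exact Nat.sub_le_sub_right (card_Fe hc hcM hDM hL hD hS he) 1
      _ = _ := by
          rw [Finset.sum_const, smul_eq_mul, mul_comm]
  have h2 : 2 * H.card + 3 * S.card ≤
      ∑ g ∈ H, inc S g + (H.filter (fun g => inc S g = 1)).card := by
    have h3 : ∀ g ∈ H, 2 + (if g ∈ S then 3 else 0) ≤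
        inc S g + (if inc S g = 1 then 1 else 0) := by
      intro g hg
      by_cases hgS : g ∈ S
      · rw [if_pos hgS, inc_self hgS]
        omega
      · rw [if_neg hgS]
        have := inc_pos hS hg
        split_ifs with h
        · omega
        · omega
    have h4 := Finset.sum_le_sum h3
    rw [Finset.sum_add_distrib, Finset.sum_add_distrib, Finset.sum_const, smul_eq_mul,
      ← Finset.sum_filter, ← Finset.card_filter, Finset.sum_const, smul_eq_mul] at h4
    have h5 : H.filter (fun g => g ∈ S) = S := by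
      ext g
      rw [Finset.mem_filter]
      exact ⟨fun h => h.2, fun h => ⟨hS.sub h, h⟩⟩
    rw [h5] at h4
    omega
  have h6 : (∑ i, D i + M) * S.card = (∑ i, D i) * S.card + (M - 1) * S.card + S.card := by
    have h7 : M = (M - 1) + 1 := by omega
    calc (∑ i, D i + M) * S.card = (∑ i, D i + ((M - 1) + 1)) * S.card := by rw [← h7]
      _ = _ := by ring
  rw [h6]
  omega

/-- **The theorem.** -/
theorem ryser_cod {c M : ℕ} {D : Fin 5 → ℕ} (hc : 1 ≤ c) (hcM : 20 * c ≤ M + 4)
    (hDM : ∀ i, D i ≤ M) (hL : Cod H c) (hD : ∀ g ∈ H, ∀ i, dd H g i ≤ D i) :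
    2 * H.card ≤ (∑ i, D i + M - 4) * matchingNumber H ∧
    ∀ j, (∑ i, D i + M - 4) * (H.image (fun g => g j)).card ≤ 8 * H.card →
      coverNumber H ≤ 4 * matchingNumber H := by
  obtain ⟨S, hS⟩ := exists_MS H
  have h1 := main hc hcM hDM hL hD hS
  have h2 : S.card ≤ matchingNumber H := by
    unfold matchingNumber
    refine le_csSup ⟨H.card, ?_⟩ ⟨S, hS.sub, ?_, rfl⟩
    · rintro n ⟨M', hM', -, rfl⟩
      exact Finset.card_le_card hM'
    · intro e he f hf hef i hi
      exact hS.mat e he f hf hef ⟨i, hi⟩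
  have h5 : 2 * H.card ≤ (∑ i, D i + M - 4) * S.card := by
    rw [Nat.sub_mul]
    omega
  refine ⟨h5.trans (Nat.mul_le_mul_left _ h2), fun j hj => ?_⟩
  have h3 : coverNumber H ≤ (H.image (fun g => g j)).card := by
    unfold coverNumber
    refine Nat.sInf_le ⟨(H.image (fun g => g j)).image (fun x => (⟨j, x⟩ : (i : Fin 5) × V i)),
      fun e he => ⟨j, ?_⟩, ?_⟩
    · exact Finset.mem_image.2 ⟨e j, Finset.mem_image.2 ⟨e, he, rfl⟩, rfl⟩
    · refine Finset.card_image_of_injective _ fun x y h => ?_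
      simpa using h
  have h6 : (H.image (fun g => g j)).card ≤ 4 * S.card := by
    have h7 : (∑ i, D i + M - 4) * (H.image (fun g => g j)).card ≤
        (∑ i, D i + M - 4) * (4 * S.card) := by
      calc _ ≤ 8 * H.card := hj
        _ = 4 * (2 * H.card) := by ring
        _ ≤ 4 * ((∑ i, D i + M - 4) * S.card) := Nat.mul_le_mul_left 4 h5
        _ = _ := by ring
    exact Nat.le_of_mul_le_mul_left h7 (by omega)
  omega

theorem ryser_final (H : Finset (Edge V)) (D : Fin 5 → ℕ) (M c : ℕ) (hc : 1 ≤ c)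
    (hcM : 20 * c ≤ M + 4) (hDM : ∀ i, D i ≤ M)
    (hD : ∀ (i : Fin 5) (x : V i), Set.ncard {g : Edge V | g ∈ H ∧ g i = x} ≤ D i)
    (hcod : ∀ i j : Fin 5, i ≠ j → ∀ (x : V i) (y : V j),
      Set.ncard {g : Edge V | g ∈ H ∧ g i = x ∧ g j = y} ≤ c) :
    2 * H.card ≤ (∑ i, D i + M - 4) * matchingNumber H ∧
    ∀ j : Fin 5, (∑ i, D i + M - 4) * Set.ncard {x : V j | ∃ g ∈ H, g j = x} ≤ 8 * H.card →
      coverNumber H ≤ 4 * matchingNumber H := by
  have h1 : ∀ g ∈ H, ∀ i, dd H g i ≤ D i := by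
    intro g _ i
    have h := hD i (g i)
    have h2 : {x : Edge V | x ∈ H ∧ x i = g i} =
        ((H.filter (fun x => x i = g i) : Finset (Edge V)) : Set (Edge V)) := by
      ext x
      simp
    rw [h2, Set.ncard_coe_finset] at h
    exact h
  have h3 : Cod H c := by
    intro g _ g' _ i j hij
    have h := hcod i j hij (g i) (g' j)
    have h2 : {x : Edge V | x ∈ H ∧ x i = g i ∧ x j = g' j} =
        ((H.filter (fun x => x i = g i ∧ x j = g' j) : Finset (Edge V)) : Set (Edge V)) := by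
      ext x
      simp
    rw [h2, Set.ncard_coe_finset] at h
    exact h
  obtain ⟨h4, h5⟩ := ryser_cod hc hcM hDM h3 h1
  refine ⟨h4, fun j hj => h5 j ?_⟩
  have h6 : {x : V j | ∃ g ∈ H, g j = x} =
      ((H.image (fun g => g j) : Finset (V j)) : Set (V j)) := by
    ext x
    simp
  rw [h6, Set.ncard_coe_finset] at hj
  exact hj

end Pool.Agent.Lib.RLin
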